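import Mathlib
import Pool.Agent.Q285.RectLE

set_option autoImplicit false

/-! The inversion generating function of the 2143-avoiding linear extensions of `EN_{s,2}`. -/

namespace Pool.Agent.Results.MP_490dbb_co.TwoRows

open Pool.Agent.Q285.RectLE

/-- `EN_{s,2}(2143)(q) = q^{(2s-1)(s-1)} (1+q)^{s-1}` for every `s ≥ 1`, as polynomials with
natural number coefficients, and then for every element `q` of a commutative semiring. -/
theorem result :
    (∀ s : ℕ, 1 ≤ s → gen s 2 (Polynomial.X : Polynomial ℕ) =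
      Polynomial.X ^ ((2 * s - 1) * (s - 1)) * (1 + Polynomial.X) ^ (s - 1)) ∧
    ∀ (K : Type) [CommSemiring K] (q : K) (s : ℕ), 1 ≤ s →
      gen s 2 q = q ^ ((2 * s - 1) * (s - 1)) * (1 + q) ^ (s - 1) :=
  ⟨fun s hs => gen_two _ s hs, fun _ _ q s hs => gen_two q s hs⟩

end Pool.Agent.Results.MP_490dbb_co.TwoRows
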